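import Pool.Agent.W345.SP.Stm

/-!
Project SP (helper345), EMB: the map FF is an embedding.
-/

set_option autoImplicit false

open Set MeasureTheory

namespace Pool.Agent.W591.SP

open Pool.Agent.W345.SP

/-- The second map. -/
noncomputable def HH (g : ℝ → ℝ) (n : ℕ) (a : Fin (n + 2) → ℝ) : E (n + 2) :=
  WithLp.toLp 2 (Fin.cases
    (a 0 + g (a (Fin.last (n + 1)) + g (a (Fin.last n).castSucc)))
    (fun j : Fin (n + 1) => a j.succ + g (a j.castSucc)))

/-- The inverse as a sequence. -/
noncomputable def BB (g : ℝ → ℝ) (n : ℕ) (w : E (n + 2)) : ℕ → ℝ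
  | 0 => w 0 - g (w (Fin.last (n + 1)))
  | k + 1 => (if h : k + 1 < n + 2 then w ⟨k + 1, h⟩ else 0) - g (BB g n w k)

theorem HH_zero (g : ℝ → ℝ) (n : ℕ) (a : Fin (n + 2) → ℝ) :
    HH g n a 0 = a 0 + g (a (Fin.last (n + 1)) + g (a (Fin.last n).castSucc)) := rfl

theorem HH_succ (g : ℝ → ℝ) (n : ℕ) (a : Fin (n + 2) → ℝ) (j : Fin (n + 1)) :
    HH g n a j.succ = a j.succ + g (a j.castSucc) := rfl

theorem BB_cont (g : ℝ → ℝ) (hg : Continuous g) (n : ℕ) (k : ℕ) :
    Continuous (fun w : E (n + 2) => BB g n w k) := by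
  have hp : ∀ i : Fin (n + 2), Continuous (fun w : E (n + 2) => w i) := fun i => by fun_prop
  induction k with
  | zero => exact (hp 0).sub (hg.comp (hp _))
  | succ k ih =>
    by_cases h : k + 1 < n + 2
    · simp only [BB, dif_pos h]
      exact (hp _).sub (hg.comp ih)
    · simp only [BB, dif_neg h]
      exact continuous_const.sub (hg.comp ih)

theorem BB_HH (g : ℝ → ℝ) (n : ℕ) (a : Fin (n + 2) → ℝ) (k : ℕ) :
    ∀ h : k < n + 2, BB g n (HH g n a) k = a ⟨k, h⟩ := by
  induction k with
  | zero =>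
    intro h
    have h1 : HH g n a (Fin.last (n + 1)) =
        a (Fin.last (n + 1)) + g (a (Fin.last n).castSucc) := HH_succ g n a (Fin.last n)
    change HH g n a 0 - g (HH g n a (Fin.last (n + 1))) = a ⟨0, h⟩
    rw [h1, HH_zero]
    change _ = a 0
    ring
  | succ k ih =>
    intro h
    have h1 : HH g n a ⟨k + 1, h⟩ = a ⟨k + 1, h⟩ + g (a ⟨k, by omega⟩) :=
      HH_succ g n a ⟨k, by omega⟩
    simp only [BB, dif_pos h]
    rw [ih (by omega), h1]
    ring

theorem HH_emb (g : ℝ → ℝ) (hg : Continuous g) (n : ℕ) : Topology.IsEmbedding (HH g n) := by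
  have hl : Function.LeftInverse (fun (w : E (n + 2)) (i : Fin (n + 2)) => BB g n w i.1)
      (HH g n) := fun a => funext fun i => BB_HH g n a i.1 i.2
  refine Function.LeftInverse.isEmbedding hl ?_ ?_
  · exact continuous_pi fun i => BB_cont g hg n i.1
  · refine (PiLp.continuous_toLp 2 _).comp (continuous_pi fun i => ?_)
    refine Fin.cases ?_ (fun j => ?_) i
    · exact (continuous_apply _).add
        (hg.comp ((continuous_apply _).add (hg.comp (continuous_apply _))))
    · exact (continuous_apply _).add (hg.comp (continuous_apply _))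

theorem arctan_emb : Topology.IsEmbedding Real.arctan := by
  refine Real.arctan_strictMono.isEmbedding_of_ordConnected ?_
  rw [Real.range_arctan]
  exact ordConnected_Ioo

theorem emb : S_EMB := by
  intro g n hg
  have h1 : Topology.IsEmbedding (fun x : E (n + 2) => (fun i => Real.arctan (x i) :
      Fin (n + 2) → ℝ)) :=
    (Topology.IsEmbedding.piMap fun _ : Fin (n + 2) => arctan_emb).comp
      (EuclideanSpace.equiv (Fin (n + 2)) ℝ).toHomeomorph.isEmbedding
  exact (HH_emb g hg n).comp h1

end Pool.Agent.W591.SP
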